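import Pool.Agent.H399.EpiComm

/-!
# Nilsubvarieties of upper-modular epigroup varieties

Every nilsubvariety of an upper-modular element of the lattice of epigroup varieties satisfies
`x y = y x` and `x ^ 2 y = x y ^ 2`.

Outline of the proof.  For a word `u` let `S(u)` be the nilpotent semigroup of the nonempty factors
of `u` together with `0`.  Suppose that `V` is upper-modular and contains a noncommutative
nil-semigroup; then `S(xy)` is in `V`.  Using the modular law for suitable triples one shows that
`V` contains the left zero and right zero semigroups, `P = {e, a, 0}` with `ee = e`, `ea = a`,
`ae = aa = 0`, its dual, and `{1, a, 0}`.  The key lemma (the modular law for `S(ry)`, the variety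
generated by `P` and the variety `L_j` given by `x_1 ... x_j y = x_1 ... x_j`) shows that
`V ∧ L_j` satisfies no identity `r y = r d` with `y` not in `r` and `d ≠ y`, provided `S(ry)` is in
`V`.  By induction on the length, `V` contains `S(u)` for all words `u` without two adjacent `x` and
with at most one occurrence of every other letter.  Now let `v = x y_1 x y_2 ... x` have more letters
`x` than the index of `V`.  The modular law for `S(v)`, `V ∧ L_m` and the variety of commutative
nilpotent semigroups of class `m = |v|` gives `v = v x` in `S(v)`, a contradiction.  The second
identity follows by a similar but easier argument for commutative `V`.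
-/

namespace Pool.Agent.Results.MP_d7b8a3_al.NilUpperModular

open Pool.Agent.H399.Epi

theorem result (V N : EpiVar) (hV : UpperModular V) (hNV : N ≤ V)
    (hN : ∀ A : USg, N.mem A → IsNil A) :
    (∀ A : USg, N.mem A → ∀ x y : A, x * y = y * x) ∧
      ∀ A : USg, N.mem A → ∀ x y : A, x * x * y = x * y * y := by
  constructor
  · intro A hA x y
    exact (nil_main hV (hNV A hA) (hN A hA) x y).1
  · intro A hA x y
    rw [mul_assoc, mul_assoc]
    exact (nil_main hV (hNV A hA) (hN A hA) x y).2

end Pool.Agent.Results.MP_d7b8a3_al.NilUpperModular
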